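import Mathlib.ModelTheory.Semantics

/-!
# A finitely generated homogeneous structure is determined by its realised types

`exists_equiv`: if `W` is generated by a finite tuple (every element is a term in it), tuples of
the same type in `W` are conjugate under automorphisms, and `H` realises the same types of finite
tuples as `W`, then `W` and `H` are isomorphic.
-/

set_option autoImplicit false

namespace Q202.LogReg

open FirstOrder FirstOrder.Language

universe u v w w'

variable (L : FirstOrder.Language.{u, v})

/-- The complete first-order type of a tuple. -/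
def tp {M : Type w} [L.Structure M] {k : ℕ} (a : Fin k → M) : Set (L.Formula (Fin k)) :=
  Set.ofPred fun φ => φ.Realize a

/-- The set of the types of `k`-tuples which are realised in `M`. -/
def types (M : Type w) [L.Structure M] (k : ℕ) : Set (Set (L.Formula (Fin k))) :=
  Set.range fun a : Fin k → M => tp L a

/-- `M` and `N` realise the same types of `k`-tuples, for every `k ≥ 1`. -/
def Isotypic (M : Type w) [L.Structure M] (N : Type w') [L.Structure N] : Prop :=
  ∀ k : ℕ, 1 ≤ k → types L M k = types L N k

variable {L}

theorem mem_tp {M : Type w} [L.Structure M] {k : ℕ} (a : Fin k → M) (φ : L.Formula (Fin k)) :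
    φ ∈ tp L a ↔ φ.Realize a := Iff.rfl

theorem realize_iff_of_tp {M : Type w} [L.Structure M] {N : Type w'} [L.Structure N] {k : ℕ}
    {a : Fin k → M} {b : Fin k → N} (h : tp L a = tp L b) (φ : L.Formula (Fin k)) :
    φ.Realize a ↔ φ.Realize b := by
  rw [← mem_tp, ← mem_tp, h]

/-- restriction of a type to an initial segment of the tuple -/
theorem tp_castSucc {M : Type w} [L.Structure M] {N : Type w'} [L.Structure N] {k : ℕ}
    {a : Fin (k + 1) → M} {b : Fin (k + 1) → N} (h : tp L a = tp L b) :
    tp L (fun i : Fin k => a i.castSucc) = tp L (fun i : Fin k => b i.castSucc) := by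
  ext φ
  have := realize_iff_of_tp h (φ.relabel Fin.castSucc)
  rw [Formula.realize_relabel, Formula.realize_relabel] at this
  exact this

theorem exists_equiv {W : Type w} [L.Structure W] {H : Type w'} [L.Structure H] {k : ℕ}
    (hk : 1 ≤ k) (x : Fin k → W) (hgen : ∀ e : W, ∃ t : L.Term (Fin k), t.realize x = e)
    (hom : ∀ a b : Fin k → W, (∀ φ : L.Formula (Fin k), φ.Realize a ↔ φ.Realize b) →
      ∃ σ : W ≃[L] W, ∀ i, σ (a i) = b i)
    (hiso : Isotypic L W H) : Nonempty (W ≃[L] H) := by
  obtain ⟨a, ha⟩ : ∃ a : Fin k → H, tp L a = tp L x := by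
    have : tp L x ∈ types L W k := ⟨x, rfl⟩
    rw [hiso k hk] at this
    exact this
  have hax : ∀ φ : L.Formula (Fin k), φ.Realize a ↔ φ.Realize x := realize_iff_of_tp ha
  choose t ht using hgen
  have hterm : ∀ s s' : L.Term (Fin k), s.realize a = s'.realize a ↔ s.realize x = s'.realize x := by
    intro s s'
    have := hax (s.equal s')
    rw [Formula.realize_equal, Formula.realize_equal] at this
    exact this
  let f : W → H := fun e => (t e).realize a
  have hf : ∀ s : L.Term (Fin k), f (s.realize x) = s.realize a := by
    intro s
    exact (hterm _ _).2 (ht _)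
  have hinj : Function.Injective f := by
    intro e e' h
    have h1 := (hterm _ _).1 h
    rw [ht, ht] at h1
    exact h1
  have hsurj : Function.Surjective f := by
    intro c
    let ac : Fin (k + 1) → H := Fin.snoc a c
    obtain ⟨bd, hbd⟩ : ∃ bd : Fin (k + 1) → W, tp L bd = tp L ac := by
      have : tp L ac ∈ types L H (k + 1) := ⟨ac, rfl⟩
      rw [← hiso (k + 1) (by omega)] at this
      exact this
    have h1 := tp_castSucc hbd
    have h2 : (fun i : Fin k => ac i.castSucc) = a := by
      funext i
      simp [ac]
    rw [h2, ha] at h1
    obtain ⟨σ, hσ⟩ := hom x (fun i => bd i.castSucc) (fun φ => (realize_iff_of_tp h1 φ).symm)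
    obtain ⟨e, he⟩ := σ.surjective (bd (Fin.last k))
    have h3 : (t e).realize (fun i : Fin k => bd i.castSucc) = bd (Fin.last k) := by
      have h4 : (fun i : Fin k => bd i.castSucc) = fun i => σ (x i) := by
        funext i; exact (hσ i).symm
      rw [h4]
      have h5 := HomClass.realize_term (F := W ≃[L] W) σ (t := t e) (v := x)
      have h6 : (σ ∘ x) = fun i => σ (x i) := rfl
      rw [h6] at h5
      rw [h5, ht, he]
    have h7 : (((t e).relabel Fin.castSucc).equal (Term.var (Fin.last k)) :
        L.Formula (Fin (k + 1))).Realize bd := by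
      rw [Formula.realize_equal, Term.realize_relabel]
      exact h3
    rw [realize_iff_of_tp hbd] at h7
    rw [Formula.realize_equal, Term.realize_relabel] at h7
    refine ⟨e, ?_⟩
    have h8 : (ac ∘ Fin.castSucc) = a := h2
    rw [h8] at h7
    rw [show f e = (t e).realize a from rfl, h7]
    simp [ac]
  refine ⟨{ toEquiv := _root_.Equiv.ofBijective f ⟨hinj, hsurj⟩
            map_fun' := ?_
            map_rel' := ?_ }⟩
  · intro n g v
    change f (Structure.funMap g v) = Structure.funMap g (f ∘ v)
    have h1 : Structure.funMap g v = (Term.func g fun i => t (v i)).realize x := by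
      rw [Term.realize_func]
      congr 1
      funext i
      exact (ht _).symm
    rw [h1, hf, Term.realize_func]
    rfl
  · intro n r v
    change Structure.RelMap r (f ∘ v) ↔ Structure.RelMap r v
    have h1 := hax (r.formula fun i => t (v i))
    rw [Formula.realize_rel, Formula.realize_rel] at h1
    have h2 : (fun i => (t (v i)).realize x) = v := by funext i; exact ht _
    rw [h2] at h1
    exact h1

end Q202.LogReg
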